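import Pool.Agent.Helper58.SF.StB

/-! BX1: boxes from local semiflows. -/

set_option autoImplicit false

namespace Pool.Agent.Helper77.SF

open Set Topology Pool.Agent.Helper13.TR Pool.Agent.Helper58.SF
open Pool.Agent.Helper13.TW (IsArc Spl IsSCC dch Chn Splt GT CSy MP Val LR MCell StARB StARX StSCL StUAR StINF StLIN StAC1 StSDM)

private theorem core {X : Type} [MetricSpace X] [LocallyCompactSpace X] (x : X) (N : Set X) (ε : ℝ)
    (rr : X → ℝ) (Φ : ℝ → X → X) (hN : IsOpen N) (hx : x ∈ N) (hε : 0 < ε) (hrr : ContinuousOn rr N)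
    (hΦ : ContinuousOn (fun p : ℝ × X => Φ p.1 p.2) (Icc 0 ε ×ˢ N)) (h0 : ∀ y ∈ N, Φ 0 y = y)
    (hsg : ∀ y ∈ N, ∀ s s' : ℝ, 0 ≤ s → 0 ≤ s' → s + s' ≤ ε → Φ s' y ∈ N → Φ (s + s') y = Φ s (Φ s' y))
    (hck : ∀ y ∈ N, ∀ s : ℝ, 0 ≤ s → s ≤ ε → Φ s y ∈ N → rr (Φ s y) = rr y - s)
    (N₃ : Set X) (hN₃ : IsOpen N₃) (hx₃ : x ∈ N₃) :
    ∃ (U : Set X) (r : ↥U → ℝ) (R : ℝ → ↥U → ↥U), IsOpen U ∧ x ∈ U ∧ U ⊆ N₃ ∧ Box ↥U r R := by
  -- the ball
  obtain ⟨K, hK, hxK, hKN⟩ := exists_compact_subset (hN.inter hN₃) ⟨hx, hx₃⟩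
  obtain ⟨ρ₁, hρ₁, hb⟩ := Metric.isOpen_iff.1 isOpen_interior x hxK
  obtain ⟨ρ, hρ, hρb⟩ : ∃ ρ : ℝ, 0 < ρ ∧ Metric.closedBall x ρ ⊆ K :=
    ⟨ρ₁ / 2, by linarith, (Metric.closedBall_subset_ball (by linarith)).trans (hb.trans interior_subset)⟩
  have hcomp : IsCompact (Metric.closedBall x ρ) := hK.of_isClosed_subset Metric.isClosed_closedBall hρb
  have hBN : ∀ y, dist y x ≤ ρ → y ∈ N := fun y hy => (hKN (hρb (Metric.mem_closedBall.2 hy))).1
  have hBN₃ : ∀ y, dist y x ≤ ρ → y ∈ N₃ := fun y hy => (hKN (hρb (Metric.mem_closedBall.2 hy))).2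
  -- the time
  have huc : UniformContinuousOn (fun p : ℝ × X => Φ p.1 p.2) (Icc 0 ε ×ˢ Metric.closedBall x ρ) :=
    (isCompact_Icc.prod hcomp).uniformContinuousOn_of_continuous
      (hΦ.mono (prod_mono_right fun y hy => hBN y (Metric.mem_closedBall.1 hy)))
  obtain ⟨δ, hδ, hδ'⟩ := Metric.uniformContinuousOn_iff.1 huc (ρ / 8) (by linarith)
  obtain ⟨δ₀, hδ₀, hδε, hmove⟩ : ∃ δ₀ : ℝ, 0 < δ₀ ∧ δ₀ ≤ ε ∧
      ∀ s : ℝ, 0 ≤ s → s ≤ δ₀ → ∀ y, dist y x ≤ ρ → dist (Φ s y) y < ρ / 8 := by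
    refine ⟨min (δ / 2) ε, lt_min (by linarith) hε, min_le_right _ _, fun s hs hs' y hy => ?_⟩
    have h1 := hδ' (s, y) ⟨⟨hs, hs'.trans (min_le_right _ _)⟩, Metric.mem_closedBall.2 hy⟩
      (0, y) ⟨⟨le_rfl, hε.le⟩, Metric.mem_closedBall.2 hy⟩ (by
        rw [Prod.dist_eq]
        simp only [dist_self]
        rw [Real.dist_eq, sub_zero, abs_of_nonneg hs]
        have := hs'.trans (min_le_left _ _)
        exact max_lt (by linarith) hδ)
    simp only [h0 y (hBN y hy)] at h1
    exact h1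
  obtain ⟨L, hL, hLδ, α, hα1, hα2⟩ : ∃ L : ℝ, 0 < L ∧ L ≤ δ₀ ∧ ∃ α : ℝ, α < rr x ∧ rr x < α + L :=
    ⟨2 * δ₀ / 3, by linarith, by linarith, rr x - δ₀ / 3, by linarith, by linarith⟩
  -- the foot
  set foot : X → X := fun y => Φ (rr y - α) y with hfoot
  set V : Set X := Metric.ball x (ρ / 2) ∩ rr ⁻¹' Ioo α (α + L) with hV
  have hbN : Metric.ball x (ρ / 2) ⊆ N := fun y hy => hBN y (by
    have := Metric.mem_ball.1 hy; linarith)
  have hVo : IsOpen V := (hrr.mono hbN).isOpen_inter_preimage Metric.isOpen_ball isOpen_Ioo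
  have hVN : V ⊆ N := fun y hy => hbN hy.1
  have hfc : ContinuousOn foot V := by
    have h1 : ContinuousOn (fun y : X => ((rr y - α, y) : ℝ × X)) V :=
      ((hrr.mono hVN).sub continuousOn_const).prodMk continuousOn_id
    have h2 : MapsTo (fun y : X => ((rr y - α, y) : ℝ × X)) V (Icc 0 ε ×ˢ N) := by
      intro y hy
      obtain ⟨h3, h4⟩ := hy.2
      exact ⟨⟨by show 0 ≤ rr y - α; linarith, by show rr y - α ≤ ε; linarith⟩, hVN hy⟩
    exact hΦ.comp h1 h2
  set U : Set X := V ∩ foot ⁻¹' Metric.ball x (ρ / 4) with hU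
  have hUo : IsOpen U := hfc.isOpen_inter_preimage hVo Metric.isOpen_ball
  have hUV : ∀ y ∈ U, dist y x < ρ / 2 ∧ α < rr y ∧ rr y < α + L ∧ dist (Φ (rr y - α) y) x < ρ / 4 :=
    fun y hy => ⟨Metric.mem_ball.1 hy.1.1, hy.1.2.1, hy.1.2.2, Metric.mem_ball.1 hy.2⟩
  have hUV' : ∀ y, dist y x < ρ / 2 → α < rr y → rr y < α + L → dist (Φ (rr y - α) y) x < ρ / 4 → y ∈ U :=
    fun y h1 h2 h3 h4 => ⟨⟨Metric.mem_ball.2 h1, h2, h3⟩, Metric.mem_ball.2 h4⟩
  have hUN : U ⊆ N := fun y hy => hVN hy.1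
  have hxU : x ∈ U := by
    refine hUV' x (by rw [dist_self]; linarith) hα1 hα2 ?_
    have := hmove (rr x - α) (by linarith) (by linarith) x (by rw [dist_self]; linarith)
    linarith
  -- flow lines stay in U
  have hflow : ∀ y ∈ U, ∀ s : ℝ, 0 ≤ s → s < rr y - α → Φ s y ∈ U ∧ rr (Φ s y) = rr y - s := by
    intro y hy s hs hs'
    obtain ⟨h1, h2, h3, h4⟩ := hUV y hy
    have h5 := hmove s hs (by linarith) y (by linarith)
    have h6 : dist (Φ s y) x ≤ ρ := by
      have := dist_triangle (Φ s y) y x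
      linarith
    have h7 : rr (Φ s y) = rr y - s := hck y (hUN hy) s hs (by linarith) (hBN _ h6)
    have h8 : Φ (rr y - α) y = Φ (rr (Φ s y) - α) (Φ s y) := by
      have := hsg y (hUN hy) (rr (Φ s y) - α) s (by rw [h7]; linarith) hs (by rw [h7]; linarith) (hBN _ h6)
      rw [← this]
      congr 1
      rw [h7]; ring
    have h9 := hmove (rr (Φ s y) - α) (by rw [h7]; linarith) (by rw [h7]; linarith) (Φ s y) h6
    refine ⟨hUV' _ ?_ (by rw [h7]; linarith) (by rw [h7]; linarith) (by rw [← h8]; exact h4), h7⟩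
    rw [← h8] at h9
    have := dist_triangle (Φ s y) (Φ (rr y - α) y) x
    rw [dist_comm] at h9
    linarith
  have hsm : ∀ (t : ℝ) (y : X), y ∈ U → 0 < t → max 0 (rr y - α - t * L) < rr y - α := by
    intro t y hy ht
    have := (hUV y hy).2.1
    exact max_lt (by linarith) (by nlinarith)
  set r : ↥U → ℝ := fun y => (rr y.1 - α) / L with hr
  classical
  set R : ℝ → ↥U → ↥U := fun t y => if h : 0 < t then
    ⟨Φ (max 0 (rr y.1 - α - t * L)) y.1, (hflow y.1 y.2 _ (le_max_left _ _) (hsm t y.1 y.2 h)).1⟩ else y with hR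
  have hRval : ∀ (t : ℝ) (y : ↥U), 0 < t → (R t y).1 = Φ (max 0 (rr y.1 - α - t * L)) y.1 := by
    intro t y ht
    simp only [hR, dif_pos ht]
  have hRrr : ∀ (t : ℝ) (y : ↥U), 0 < t → rr (R t y).1 = rr y.1 - max 0 (rr y.1 - α - t * L) := by
    intro t y ht
    rw [hRval t y ht]
    exact (hflow y.1 y.2 _ (le_max_left _ _) (hsm t y.1 y.2 ht)).2
  have hrval : ∀ y : ↥U, rr y.1 - α = r y * L := by
    intro y; simp only [hr]; field_simp
  refine ⟨U, r, R, hUo, hxU, fun y hy => hBN₃ y (by have := (hUV y hy).1; linarith), ?_⟩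
  have hrc : Continuous r := by
    have h1 : Continuous fun y : ↥U => rr y.1 :=
      (hrr.mono hUN).comp_continuous continuous_subtype_val fun y => y.2
    exact (h1.sub continuous_const).div_const L
  refine { rc := hrc, pos := ?_, lt := ?_, Rc := ?_, rR := ?_, Rid := ?_, RR := ?_, cpt := ?_ }
  · intro y
    exact div_pos (by have := (hUV y.1 y.2).2.1; linarith) hL
  · intro y
    rw [hr]
    simp only
    rw [div_lt_one hL]
    have := (hUV y.1 y.2).2.2.1
    linarith
  · rw [IsInducing.subtypeVal.continuousOn_iff]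
    have h1 : ContinuousOn (fun p : ℝ × ↥U => Φ (max 0 (rr p.2.1 - α - p.1 * L)) p.2.1) {p | 0 < p.1} := by
      have h2 : Continuous fun p : ℝ × ↥U => ((max 0 (rr p.2.1 - α - p.1 * L), p.2.1) : ℝ × X) := by
        have h3 : Continuous fun y : ↥U => rr y.1 :=
          (hrr.mono hUN).comp_continuous continuous_subtype_val fun y => y.2
        have h4 : Continuous fun p : ℝ × ↥U => rr p.2.1 := h3.comp continuous_snd
        exact (continuous_const.max ((h4.sub continuous_const).sub (continuous_fst.mul continuous_const))).prodMk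
          (continuous_subtype_val.comp continuous_snd)
      refine hΦ.comp h2.continuousOn ?_
      intro p hp
      have h5 := hsm p.1 p.2.1 p.2.2 hp
      have h6 := (hUV p.2.1 p.2.2).2.2.1
      exact ⟨⟨le_max_left _ _, by show max 0 (rr p.2.1 - α - p.1 * L) ≤ ε; linarith⟩, hUN p.2.2⟩
    refine h1.congr ?_
    intro p hp
    exact hRval p.1 p.2 hp
  · intro t y ht
    have h1 := hRrr t y ht
    have h2 := hrval y
    have h3 : r (R t y) = (rr (R t y).1 - α) / L := rfl
    rw [h3, h1, div_eq_iff hL.ne']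
    rcases le_total (r y) t with h | h
    · rw [min_eq_right h, max_eq_left (by nlinarith)]
      linarith
    · rw [min_eq_left h, max_eq_right (by nlinarith)]
      linarith
  · intro t y hty
    have h1 : 0 < r y := div_pos (by have := (hUV y.1 y.2).2.1; linarith) hL
    have ht : 0 < t := lt_of_lt_of_le h1 hty
    apply Subtype.ext
    rw [hRval t y ht, max_eq_left, h0 y.1 (hUN y.2)]
    have h2 := hrval y
    nlinarith
  · intro s t y hs hst
    have ht : 0 < t := lt_of_lt_of_le hs hst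
    apply Subtype.ext
    have h1 := hRrr t y ht
    have h2 := hUN (R t y).2
    rw [hRval s (R t y) hs, hRval s y hs, h1]
    rw [hRval t y ht] at h2 ⊢
    have h3 := (hUV y.1 y.2).2.1
    have h4 := (hUV y.1 y.2).2.2.1
    have h5 := hsm t y.1 y.2 ht
    have hmul : s * L ≤ t * L := by nlinarith
    have hsL : 0 < s * L := by positivity
    set a := rr y.1 - α with ha
    have e1 : rr y.1 - max 0 (a - t * L) - α - s * L = a - max 0 (a - t * L) - s * L := by rw [ha]; ring
    rw [e1]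
    have e2 : max 0 (a - max 0 (a - t * L) - s * L) + max 0 (a - t * L) = max 0 (a - s * L) := by
      rcases le_total (a - t * L) 0 with h | h
      · rw [max_eq_left h]; ring_nf
      · rw [max_eq_right h, max_eq_right (by linarith), max_eq_right (by linarith)]; ring
    have h6 := hsg y.1 (hUN y.2) (max 0 (a - max 0 (a - t * L) - s * L)) (max 0 (a - t * L)) (le_max_left _ _)
      (le_max_left _ _) (by
        rw [e2]
        exact max_le hε.le (by linarith)) h2
    rw [← h6, e2]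
  · intro t t' C ht htt' ht' hC hCt
    rw [IsEmbedding.subtypeVal.isCompact_iff]
    -- the closed set
    have hK1 : IsClosed (Metric.closedBall x (ρ / 2) ∩ rr ⁻¹' Icc (α + t * L) (α + t' * L)) := by
      refine ContinuousOn.preimage_isClosed_of_isClosed (hrr.mono ?_) Metric.isClosed_closedBall isClosed_Icc
      intro y hy
      exact hBN y (by have := Metric.mem_closedBall.1 hy; linarith)
    set K₁ := Metric.closedBall x (ρ / 2) ∩ rr ⁻¹' Icc (α + t * L) (α + t' * L) with hK₁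
    have htL : 0 < t * L := by positivity
    have ht'L : t' * L < L := by nlinarith
    have hK1N : K₁ ⊆ N := fun y hy => hBN y (by have := Metric.mem_closedBall.1 hy.1; linarith)
    have hK2 : IsClosed (K₁ ∩ (fun y => Φ (rr y - α - t * L) y) ⁻¹' (Subtype.val '' C)) := by
      refine ContinuousOn.preimage_isClosed_of_isClosed ?_ hK1 (hC.image continuous_subtype_val).isClosed
      have h1 : ContinuousOn (fun y : X => ((rr y - α - t * L, y) : ℝ × X)) K₁ :=
        (((hrr.mono hK1N).sub continuousOn_const).sub continuousOn_const).prodMk continuousOn_id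
      refine hΦ.comp h1 ?_
      intro y hy
      obtain ⟨h3, h4⟩ := hy.2
      exact ⟨⟨by show 0 ≤ rr y - α - t * L; linarith, by show rr y - α - t * L ≤ ε; linarith⟩, hK1N hy⟩
    have hK2c : IsCompact (K₁ ∩ (fun y => Φ (rr y - α - t * L) y) ⁻¹' (Subtype.val '' C)) :=
      hcomp.of_isClosed_subset hK2 fun y hy => Metric.closedBall_subset_closedBall (by linarith) hy.1.1
    convert hK2c using 1
    ext y
    constructor
    · rintro ⟨z, ⟨hz1, hz2, hz3⟩, rfl⟩
      have hzv := hrval z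
      have hmax : max 0 (rr z.1 - α - t * L) = rr z.1 - α - t * L := max_eq_right (by nlinarith)
      refine ⟨⟨Metric.mem_closedBall.2 (hUV z.1 z.2).1.le, ?_, ?_⟩, ?_⟩
      · nlinarith
      · nlinarith
      · refine ⟨R t z, hz3, ?_⟩
        show (R t z).1 = Φ (rr z.1 - α - t * L) z.1
        rw [hRval t z ht, hmax]
    · rintro ⟨⟨hy1, hy2, hy3⟩, z, hzC, hz⟩
      have hyd : dist y x ≤ ρ / 2 := Metric.mem_closedBall.1 hy1
      have hyN : y ∈ N := hBN y (by linarith)
      have hz' : Φ (rr y - α - t * L) y = z.1 := hz.symm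
      have hzN : Φ (rr y - α - t * L) y ∈ N := by rw [hz']; exact hUN z.2
      have h1 : rr z.1 = α + t * L := by
        rw [← hz', hck y hyN _ (by linarith) (by linarith) hzN]; ring
      have h2 : Φ (rr y - α) y = Φ (rr z.1 - α) z.1 := by
        have h3 := hsg y hyN (rr z.1 - α) (rr y - α - t * L) (by rw [h1]; linarith) (by linarith)
          (by rw [h1]; linarith) hzN
        rw [hz'] at h3
        rw [← h3]
        congr 1
        rw [h1]; ring
      have h4 := (hUV z.1 z.2).2.2.2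
      rw [← h2] at h4
      have h5 := hmove (rr y - α) (by linarith) (by linarith) y (by linarith)
      have h6 := dist_triangle y (Φ (rr y - α) y) x
      rw [dist_comm] at h5
      have hyU : y ∈ U := hUV' y (by linarith) (by linarith) (by linarith) h4
      have hv := hrval ⟨y, hyU⟩
      simp only at hv
      refine ⟨⟨y, hyU⟩, ⟨?_, ?_, ?_⟩, rfl⟩
      · by_contra hcon
        push Not at hcon
        nlinarith
      · by_contra hcon
        push Not at hcon
        nlinarith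
      · have h7 : R t ⟨y, hyU⟩ = z := by
          apply Subtype.ext
          rw [hRval t _ ht, max_eq_right (by show 0 ≤ rr y - α - t * L; linarith)]
          exact hz'
        rw [h7]; exact hzC

private theorem lh1 (hPSH : StPSH) (X : Type) [TopologicalSpace X] (U : Set X) (hU : IsOpen U) (h : LH1 X) :
    LH1 ↥U := by
  intro x O hO hxO
  obtain ⟨p1, -, p3, p4, p5, -⟩ := hPSH ↥U X X ⟨Subtype.val, continuous_subtype_val⟩ (ContinuousMap.id X)
  have hinj : Function.Injective (⟨Subtype.val, continuous_subtype_val⟩ : C(↥U, X)) := Subtype.val_injective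
  have hO' : IsOpen (Subtype.val '' O) := hU.isOpenMap_subtype_val O hO
  obtain ⟨V, hV, hxV, hVO, hz⟩ := h x.1 (Subtype.val '' O) hO' ⟨x, hxO, rfl⟩
  refine ⟨Subtype.val ⁻¹' V, hV.preimage continuous_subtype_val, hxV, ?_, ?_⟩
  · intro y hy
    obtain ⟨y', hy', e⟩ := hVO hy
    rwa [Subtype.ext e] at hy'
  · intro z hzV hz0
    have h1 := p3 V 1 z hzV
    have h2 : bd 0 (push ⟨Subtype.val, continuous_subtype_val⟩ 1 z) = 0 := by
      rw [p1, hz0, map_zero]
    obtain ⟨e, he, hez⟩ := hz _ h1 h2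
    obtain ⟨e', he', hpe⟩ := p5 IsEmbedding.subtypeVal O 2 e he
    refine ⟨e', he', p4 hinj 1 ?_⟩
    rw [← p1, hpe, hez]

theorem hBX1 : StOP3 → StOPN → StPSH → StBX1 := by
  intro hOP3 hOPN hPSH X _ _ _ _ hHM hLH x N ε rr Φ hN hx hε hrr hΦ h0 hsg hck
  let _ : MetricSpace X := TopologicalSpace.metrizableSpaceMetric X
  obtain ⟨N₃, hN₃, hx₃, hdg⟩ := hOP3.1 X hHM x
  obtain ⟨U, r, R, hU, hxU, hUN, hB⟩ := core x N ε rr Φ hN hx hε hrr hΦ h0 hsg hck N₃ hN₃ hx₃
  obtain ⟨dg, hws⟩ := hdg U hU hUN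
  exact ⟨U, r, R, dg, hU, hxU,
    { met := inferInstance
      lco := hU.locallyCompactSpace
      lpc := hU.locallyPathConnectedSpace
      box := hB
      hm := hOPN X U hU hHM
      ws := hws
      lh := lh1 hPSH X U hU hLH }⟩

end Pool.Agent.Helper77.SF
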